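import Pool.Agent.Q58.AM2

/-!
Among all connected graphs on `n` vertices the complete graph has the largest trace of the
average mixing matrix with respect to the adjacency matrix.
-/

namespace Pool.Agent.Results.MP_582e4a_co.CompleteGraphMaximal

open Q58.AM

theorem result {V : Type*} [Fintype V] [DecidableEq V] (X : SimpleGraph V) [DecidableRel X.Adj]
    (hX : X.Connected) :
    (avgMixing X).trace ≤ (avgMixing (⊤ : SimpleGraph V)).trace ∧
    (avgMixing (⊤ : SimpleGraph V)).trace =
      ((Fintype.card V : ℝ) ^ 2 - 2 * (Fintype.card V : ℝ) + 2) / (Fintype.card V : ℝ) :=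
  main X hX

end Pool.Agent.Results.MP_582e4a_co.CompleteGraphMaximal
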